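import Pool.Agent.H516R3.BM.Nondisc
import Pool.Agent.H516R3.BM.St

set_option autoImplicit false
set_option linter.all false

noncomputable section

namespace Pool.Agent.Results.MP_9a581e_an.NotRecovered

open Equiv MeasureTheory Measure Pool.Agent.H516R3.BM
open Pool.Agent.H516R3.BM.St (StarIso red_iso')

/-- `F₁ ≤ Sym(d₁)` and `F₂ ≤ Sym(d₂)` are permutation isomorphic. -/
def PermIso {d₁ d₂ : ℕ} (F₁ : Subgroup (Perm (Fin d₁))) (F₂ : Subgroup (Perm (Fin d₂))) : Prop :=
  d₁ = d₂ ∧ ∃ b : Fin d₁ ≃ Fin d₂, ∀ σ : Perm (Fin d₁), σ ∈ F₁ ↔ (b.symm.trans σ).trans b ∈ F₂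

/-- the Borel structure of a Burger-Mozes group -/
instance {d : ℕ} (X : ColouredTree d) (F : Subgroup (Perm (Fin d))) : MeasurableSpace (BM X F) :=
  borel _

instance {d : ℕ} (X : ColouredTree d) (F : Subgroup (Perm (Fin d))) : BorelSpace (BM X F) := ⟨rfl⟩

instance : Countable Red4 := by
  unfold Red4
  infer_instance

lemma countable4 : Countable X4.V := (inferInstance : Countable Red4)
lemma countable3 : Countable X3.V := (inferInstance : Countable (Red4 × Bool))

lemma secondCountable {d : ℕ} (X : ColouredTree d) (F : Subgroup (Perm (Fin d)))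
    (h : Countable X.V) : SecondCountableTopology (BM X F) := by
  letI : TopologicalSpace X.V := ⊥
  haveI : DiscreteTopology X.V := ⟨rfl⟩
  haveI : SecondCountableTopology (X.V → X.V) := inferInstance
  exact TopologicalSpace.secondCountableTopology_induced (BM X F) (X.V → X.V)
    (fun g : BM X F => ((g : Perm X.V) : X.V → X.V))

/-- The reduced group C*-algebras of `U(F₁)` and `U(F₂)` are *-isomorphic, whatever the choice of
the Haar measures. -/
def RedIso {d₁ d₂ : ℕ} (X₁ : ColouredTree d₁) (F₁ : Subgroup (Perm (Fin d₁)))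
    (X₂ : ColouredTree d₂) (F₂ : Subgroup (Perm (Fin d₂))) : Prop :=
  ∀ (μ₁ : Measure (BM X₁ F₁)) (μ₂ : Measure (BM X₂ F₂)), μ₁.IsHaarMeasure → μ₂.IsHaarMeasure →
    StarIso (St.CStarRed μ₁) (St.CStarRed μ₂)

/-- There are a 3-regular and a 4-regular tree with legal colourings and permutation groups
`F₁ ≤ Sym(3)`, `F₂ ≤ Sym(4)` such that the Burger-Mozes groups `U(F₁)` and `U(F₂)` are not
discrete, the reduced group C*-algebras of `U(F₁)` and `U(F₂)` are isomorphic (for all choices of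
Haar measures), and `F₁` and `F₂` are not permutation isomorphic; in fact `U(F₁)` and `U(F₂)` are
isomorphic as topological groups. -/
theorem result :
    ∃ (X₁ : ColouredTree 3) (X₂ : ColouredTree 4)
      (F₁ : Subgroup (Perm (Fin 3))) (F₂ : Subgroup (Perm (Fin 4))),
      ¬ DiscreteTopology (BM X₁ F₁) ∧ ¬ DiscreteTopology (BM X₂ F₂) ∧
      Nonempty (BM X₁ F₁ ≃ₜ* BM X₂ F₂) ∧ RedIso X₁ F₁ X₂ F₂ ∧ ¬ PermIso F₁ F₂ := by
  refine ⟨X3, X4, F3, F4, not_discrete3, not_discrete4, ⟨topIso34⟩, ?_, ?_⟩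
  · intro μ₁ μ₂ h₁ h₂
    haveI := secondCountable X3 F3 countable3
    haveI := secondCountable X4 F4 countable4
    exact red_iso' topIso34 μ₁ μ₂
  · rintro ⟨h, _⟩
    exact absurd h (by decide)

end Pool.Agent.Results.MP_9a581e_an.NotRecovered
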